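import Mathlib
import Pool.Agent.H295R3.D6.Stmts

set_option autoImplicit false

open Finset Filter

namespace Pool.Agent.H111R5.Count

open Pool.Agent.H295R3.D6

theorem card_ge {B₀ : ℕ} (h : ∀ B : ℕ, B₀ ≤ B →
    (B : ℝ) / 3 ≤ ∑ q ∈ (Ioc (B / 2) B).filter Nat.Prime, Real.log q)
    {N k : ℕ} (hk : 1 ≤ k) (hN : 2 ≤ N) (h4 : 4 * k ≤ N) (hB : B₀ ≤ N / k) :
    (N : ℝ) / (4 * k * Real.log N) ≤ (((Ioc ((N / k) / 2) (N / k)).filter Nat.Prime).card : ℝ) := by
  have h1 := h (N / k) hB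
  have hlog : 0 < Real.log N := Real.log_pos (by exact_mod_cast (by omega : 1 < N))
  have h2 : ∑ q ∈ (Ioc ((N / k) / 2) (N / k)).filter Nat.Prime, Real.log q ≤
      (((Ioc ((N / k) / 2) (N / k)).filter Nat.Prime).card : ℝ) * Real.log N := by
    rw [← nsmul_eq_mul]
    apply Finset.sum_le_card_nsmul
    intro q hq
    rw [mem_filter, mem_Ioc] at hq
    apply Real.log_le_log
    · exact_mod_cast hq.2.pos
    · exact_mod_cast hq.1.2.trans (Nat.div_le_self _ _)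
  have hkR : (0 : ℝ) < k := by exact_mod_cast hk
  have h3 : (3 / 4 : ℝ) * (N / k) ≤ ((N / k : ℕ) : ℝ) := by
    have e1 : (N : ℝ) < k * (((N / k : ℕ) : ℝ) + 1) := by
      exact_mod_cast Nat.lt_mul_div_succ N (by omega : 0 < k)
    have e2 : (4 : ℝ) * k ≤ N := by exact_mod_cast h4
    rw [← mul_div_assoc, div_le_iff₀ hkR]
    nlinarith
  rw [div_le_iff₀ (by positivity)]
  have h5 : (3 / 4 : ℝ) * (N / k) / 3 ≤ (((Ioc ((N / k) / 2) (N / k)).filter Nat.Prime).card : ℝ) * Real.log N :=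
    (div_le_div_of_nonneg_right h3 (by norm_num)).trans (h1.trans h2)
  have h6 : (3 / 4 : ℝ) * (N / k) / 3 * (4 * k) = N := by
    field_simp
    try norm_num
  calc (N : ℝ) = (3 / 4 : ℝ) * (N / k) / 3 * (4 * k) := h6.symm
    _ ≤ (((Ioc ((N / k) / 2) (N / k)).filter Nat.Prime).card : ℝ) * Real.log N * (4 * k) :=
        mul_le_mul_of_nonneg_right h5 (by positivity)
    _ = _ := by ring

open Classical in
theorem count_le {y : ℕ} {η : ℝ} {N K : ℕ} (hKN : (K : ℝ) ≤ (N : ℝ) ^ η)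
    (hbig : 2 * K * K ≤ N) (s : Finset ℕ)
    (hs : ∀ k, k ∈ s ↔ (2 ≤ k ∧ k ≤ K ∧ Nice y k)) :
    ∑ k ∈ s, ((Ioc ((N / k) / 2) (N / k)).filter Nat.Prime).card ≤ (Cand y η N).ncard := by
  rw [← Finset.card_sigma, ← Set.ncard_coe_finset]
  have key : ∀ k ∈ s, ∀ p ∈ (Ioc ((N / k) / 2) (N / k)).filter Nat.Prime,
      k * p ≤ N ∧ N < 2 * (k * p) ∧ p.Prime := by
    intro k hk p hp
    rw [mem_filter, mem_Ioc] at hp
    have hk1 := (hs k).1 hk
    refine ⟨?_, ?_, hp.2⟩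
    · calc k * p ≤ k * (N / k) := Nat.mul_le_mul_left _ hp.1.2
        _ ≤ N := Nat.mul_div_le _ _
    · have e1 : N < k * (N / k + 1) := Nat.lt_mul_div_succ N (by omega : 0 < k)
      have e2 : N / k + 1 ≤ 2 * p := by omega
      calc N < k * (N / k + 1) := e1
        _ ≤ k * (2 * p) := Nat.mul_le_mul_left _ e2
        _ = 2 * (k * p) := by ring
  have hpk : ∀ k ∈ s, ∀ p ∈ (Ioc ((N / k) / 2) (N / k)).filter Nat.Prime, K < p := by
    intro k hk p hp
    obtain ⟨h1, h2, h3⟩ := key k hk p hp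
    have hk1 := (hs k).1 hk
    by_contra hcon
    push Not at hcon
    have : 2 * (k * p) ≤ 2 * K * K := by
      calc 2 * (k * p) ≤ 2 * (K * K) := Nat.mul_le_mul_left _ (Nat.mul_le_mul hk1.2.1 hcon)
        _ = 2 * K * K := by ring
    omega
  have hfin : (Cand y η N).Finite := by
    apply Set.Finite.subset (Set.finite_Iic N)
    intro m hm
    exact hm.1
  refine Set.ncard_le_ncard_of_injOn (fun x : (_ : ℕ) × ℕ => x.1 * x.2) ?_ ?_ hfin
  · rintro ⟨k, p⟩ hx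
    rw [mem_coe, mem_sigma] at hx
    obtain ⟨h1, h2, h3⟩ := key k hx.1 p hx.2
    have hk1 := (hs k).1 hx.1
    exact ⟨h1, h2, k, p, hk1.2.2, hk1.1, le_trans (by exact_mod_cast hk1.2.1) hKN, h3, rfl⟩
  · rintro ⟨k, p⟩ hx ⟨k', p'⟩ hx' heq
    rw [mem_coe, mem_sigma] at hx hx'
    simp only at heq
    have hp := hpk k hx.1 p hx.2
    have hp' := hpk k' hx'.1 p' hx'.2
    have hk := (hs k).1 hx.1
    have hk' := (hs k').1 hx'.1
    have pp := (key k hx.1 p hx.2).2.2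
    have pp' := (key k' hx'.1 p' hx'.2).2.2
    have hpp : p = p' := by
      have : p ∣ k' * p' := ⟨k, by rw [← heq]; ring⟩
      rcases (Nat.Prime.dvd_mul pp).1 this with h | h
      · exact absurd (Nat.le_of_dvd (by omega) h) (by omega)
      · exact (Nat.prime_dvd_prime_iff_eq pp pp').1 h
    subst hpp
    have hkk : k = k' := Nat.eq_of_mul_eq_mul_right pp.pos heq
    subst hkk
    rfl

theorem taskCOUNT : TaskCOUNT := by
  intro hCheb y c hc hK
  obtain ⟨B₀, hB2, hB₀⟩ := hCheb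
  refine ⟨c / 8, by positivity, ?_⟩
  intro η hη hη1
  -- K = floor (N^η)
  have htend : Tendsto (fun N : ℕ => (N : ℝ) ^ η) atTop atTop :=
    (tendsto_rpow_atTop hη).comp tendsto_natCast_atTop_atTop
  have htendK : Tendsto (fun N : ℕ => ⌊(N : ℝ) ^ η⌋₊) atTop atTop :=
    tendsto_nat_floor_atTop.comp htend
  have htend2 : Tendsto (fun N : ℕ => (N : ℝ) ^ (η / 2)) atTop atTop :=
    (tendsto_rpow_atTop (by positivity)).comp tendsto_natCast_atTop_atTop
  have htend3 : Tendsto (fun N : ℕ => (N : ℝ) ^ (1 / 2 : ℝ)) atTop atTop :=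
    (tendsto_rpow_atTop (by norm_num)).comp tendsto_natCast_atTop_atTop
  filter_upwards [htendK.eventually hK, htend2.eventually (eventually_ge_atTop 2),
    htend3.eventually (eventually_ge_atTop (max 4 ((B₀ : ℝ) + 1))), eventually_ge_atTop 16] with N hKN h2 h3 hN16
  set K := ⌊(N : ℝ) ^ η⌋₊ with hKdef
  have hN1 : (1 : ℝ) ≤ N := by exact_mod_cast (by omega : 1 ≤ N)
  have hN0 : (0 : ℝ) < N := by linarith
  have hKle : (K : ℝ) ≤ (N : ℝ) ^ η := Nat.floor_le (by positivity)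
  have hlogN : 0 < Real.log N := Real.log_pos (by exact_mod_cast (by omega : 1 < N))
  -- K^2 bounds
  have hhalf : (N : ℝ) ^ (1 / 2 : ℝ) * (N : ℝ) ^ (1 / 2 : ℝ) = N := by
    rw [← Real.rpow_add hN0]; norm_num
  have hη10 : (N : ℝ) ^ η ≤ (N : ℝ) ^ (1 / 10 : ℝ) := Real.rpow_le_rpow_of_exponent_le hN1 hη1
  have hK2 : (K : ℝ) * K ≤ (N : ℝ) ^ (1 / 2 : ℝ) := by
    calc (K : ℝ) * K ≤ (N : ℝ) ^ η * (N : ℝ) ^ η := by gcongr
      _ = (N : ℝ) ^ (η + η) := by rw [← Real.rpow_add hN0]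
      _ ≤ (N : ℝ) ^ (1 / 2 : ℝ) := Real.rpow_le_rpow_of_exponent_le hN1 (by linarith)
  have h4' : (4 : ℝ) ≤ (N : ℝ) ^ (1 / 2 : ℝ) := (le_max_left _ _).trans h3
  have hB' : (B₀ + 1 : ℝ) ≤ (N : ℝ) ^ (1 / 2 : ℝ) := (le_max_right _ _).trans h3
  have hbig : 2 * K * K ≤ N := by
    have : (2 : ℝ) * K * K ≤ N := by nlinarith
    exact_mod_cast this
  have hKhalf : ∀ k : ℕ, k ≤ K → (k : ℝ) ≤ (N : ℝ) ^ (1 / 2 : ℝ) := by
    intro k hk
    calc (k : ℝ) ≤ K := by exact_mod_cast hk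
      _ ≤ (N : ℝ) ^ η := hKle
      _ ≤ (N : ℝ) ^ (1 / 2 : ℝ) := Real.rpow_le_rpow_of_exponent_le hN1 (by linarith)
  classical
  set s : Finset ℕ := (Icc 2 K).filter (fun k => Nice y k) with hs
  have hsmem : ∀ k, k ∈ s ↔ (2 ≤ k ∧ k ≤ K ∧ Nice y k) := by
    intro k; rw [hs, mem_filter, mem_Icc]; tauto
  have hsum := hKN s hsmem
  have hcount := count_le (y := y) hKle hbig s hsmem
  have hcountR : (∑ k ∈ s, (((Ioc ((N / k) / 2) (N / k)).filter Nat.Prime).card : ℝ)) ≤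
      ((Cand y η N).ncard : ℝ) := by exact_mod_cast hcount
  have hlower : (N : ℝ) / (4 * Real.log N) * ∑ k ∈ s, (1 : ℝ) / k ≤
      ∑ k ∈ s, (((Ioc ((N / k) / 2) (N / k)).filter Nat.Prime).card : ℝ) := by
    rw [Finset.mul_sum]
    apply Finset.sum_le_sum
    intro k hk
    have hk1 := (hsmem k).1 hk
    have hkR : (0 : ℝ) < k := by exact_mod_cast (by omega : 0 < k)
    have hkh := hKhalf k hk1.2.1
    have := card_ge hB₀ (N := N) (k := k) (by omega) (by omega)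
      (by
        have : (4 : ℝ) * k ≤ N := by nlinarith
        exact_mod_cast this)
      (by
        rw [Nat.le_div_iff_mul_le (by omega)]
        have : (B₀ : ℝ) * k ≤ N := by
          have : (B₀ : ℝ) ≤ (N : ℝ) ^ (1 / 2 : ℝ) := by linarith
          have hB0 : (0 : ℝ) ≤ B₀ := by positivity
          nlinarith
        exact_mod_cast this)
    calc (N : ℝ) / (4 * Real.log N) * (1 / k) = (N : ℝ) / (4 * k * Real.log N) := by
          field_simp
      _ ≤ _ := this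
  have hlogK : η / 2 * Real.log N ≤ Real.log K := by
    have e1 : (N : ℝ) ^ (η / 2) ≤ K := by
      have e2 : (N : ℝ) ^ (η / 2) * (N : ℝ) ^ (η / 2) = (N : ℝ) ^ η := by
        rw [← Real.rpow_add hN0]; congr 1; ring
      have e3 : (N : ℝ) ^ η < K + 1 := Nat.lt_floor_add_one _
      nlinarith
    rw [← Real.log_rpow hN0]
    exact Real.log_le_log (by positivity) e1
  calc c / 8 * η * N = (N : ℝ) / (4 * Real.log N) * (c * (η / 2 * Real.log N)) := by
        field_simp; try ring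
    _ ≤ (N : ℝ) / (4 * Real.log N) * (c * Real.log K) := by gcongr
    _ ≤ (N : ℝ) / (4 * Real.log N) * ∑ k ∈ s, (1 : ℝ) / k := by gcongr
    _ ≤ _ := hlower
    _ ≤ _ := hcountR

end Pool.Agent.H111R5.Count
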